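import Pool.Agent.Y536.OQ.Stm

/-!
# Extensions with alternating kernel (job OQ-EXT)
-/

set_option autoImplicit false
set_option linter.unusedSectionVars false

namespace Pool.Agent.Y406.OQ.EXT

open Pool.Agent.Y536.OP Pool.Agent.Y536.OP.SA Pool.Agent.Y536.OQ Finset

/-- the new weights -/
noncomputable def dp (δ : ℕ → ℝ) (a p : ℕ) : ℝ := δ p / (p ^ a.factorization p : ℕ)

section

variable {m : ℕ} {G : Type} [Group G] [Finite G] (N : Subgroup G) [N.Normal]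
  (f : G →* Equiv.Perm (Fin m))

lemma eq_one (hinf : N ⊓ f.ker = ⊥) {x : G} (hx : x ∈ N) (hf : f x = 1) : x = 1 := by
  have h : x ∈ N ⊓ f.ker := ⟨hx, MonoidHom.mem_ker.2 hf⟩
  rw [hinf] at h
  exact Subgroup.mem_bot.1 h

lemma sign_of_mem (hmap : N.map f = alternatingGroup (Fin m)) {x : G} (hx : x ∈ N) :
    Equiv.Perm.sign (f x) = 1 := by
  have h : f x ∈ N.map f := Subgroup.mem_map_of_mem f hx
  rw [hmap] at h
  exact Equiv.Perm.mem_alternatingGroup.1 h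

lemma card_N (hinf : N ⊓ f.ker = ⊥) (hmap : N.map f = alternatingGroup (Fin m)) :
    Nat.card N = Nat.card (alternatingGroup (Fin m)) := by
  rw [← hmap]
  have hinj : Function.Injective (f.subgroupMap N) := by
    rw [injective_iff_map_eq_one]
    intro x hx
    have h1 : f x = 1 := congrArg Subtype.val hx
    exact Subtype.ext (eq_one N f hinf x.2 h1)
  exact Nat.card_congr (Equiv.ofBijective _ ⟨hinj, f.subgroupMap_surjective N⟩)

lemma dvd_order (hinf : N ⊓ f.ker = ⊥) {p : ℕ} (hp : p.Prime) (x : G) :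
    p ∣ orderOf x ↔ p ∣ orderOf (x : G ⧸ N) ∨ p ∣ orderOf (f x) := by
  constructor
  · intro h
    have h1 : orderOf x ∣ Nat.lcm (orderOf (x : G ⧸ N)) (orderOf (f x)) := by
      apply orderOf_dvd_of_pow_eq_one
      apply eq_one N f hinf
      · rw [← QuotientGroup.eq_one_iff, QuotientGroup.mk_pow]
        exact orderOf_dvd_iff_pow_eq_one.1 (Nat.dvd_lcm_left _ _)
      · rw [map_pow]
        exact orderOf_dvd_iff_pow_eq_one.1 (Nat.dvd_lcm_right _ _)
    exact (Nat.Prime.dvd_lcm hp).1 (h.trans h1)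
  · rintro (h | h)
    · exact h.trans (orderOf_map_dvd (QuotientGroup.mk' N) x)
    · exact h.trans (orderOf_map_dvd f x)

open Classical in
lemma fiber_sum [Fintype G] (hinf : N ⊓ f.ker = ⊥) (hmap : N.map f = alternatingGroup (Fin m))
    (x0 : G) (g : Equiv.Perm (Fin m) → ℝ) :
    ∑ x ∈ univ.filter (fun x : G => (x : G ⧸ N) = (x0 : G ⧸ N)), g (f x) =
      ∑ s ∈ univ.filter (fun s : Equiv.Perm (Fin m) =>
        Equiv.Perm.sign s = Equiv.Perm.sign (f x0)), g s := by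
  refine Finset.sum_bij (fun x _ => f x) ?_ ?_ ?_ ?_
  · intro x hx
    have h1 : x0⁻¹ * x ∈ N := QuotientGroup.eq.1 (mem_filter.1 hx).2.symm
    have h2 := sign_of_mem N f hmap h1
    rw [map_mul, map_inv, map_mul, map_inv] at h2
    refine mem_filter.2 ⟨mem_univ _, ?_⟩
    exact (inv_mul_eq_one.1 h2).symm
  · intro x hx y hy hxy
    have h1 : x⁻¹ * y ∈ N :=
      QuotientGroup.eq.1 ((mem_filter.1 hx).2.trans (mem_filter.1 hy).2.symm)
    have hxy' : f x = f y := hxy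
    have h2 := eq_one N f hinf h1 (by rw [map_mul, map_inv, hxy', inv_mul_cancel])
    exact inv_mul_eq_one.1 h2
  · intro s hs
    have h1 : (f x0)⁻¹ * s ∈ alternatingGroup (Fin m) := by
      rw [Equiv.Perm.mem_alternatingGroup, map_mul, map_inv, (mem_filter.1 hs).2, inv_mul_cancel]
    rw [← hmap] at h1
    obtain ⟨n, hn, hfn⟩ := h1
    refine ⟨x0 * n, mem_filter.2 ⟨mem_univ _, ?_⟩, ?_⟩
    · refine QuotientGroup.eq.2 ?_
      have e : (x0 * n)⁻¹ * x0 = n⁻¹ := by group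
      rw [e]
      exact N.inv_mem hn
    · rw [map_mul, hfn, mul_inv_cancel_left]
  · intro x _
    rfl

lemma phi_eq (hinf : N ⊓ f.ker = ⊥) {σ : Finset ℕ} (hσ : ∀ p ∈ σ, p.Prime) (δ : ℕ → ℝ)
    (c : G ⧸ N) (x : G) (hx : (x : G ⧸ N) = c) :
    phi σ δ x = phi (σ.filter fun p => ¬ p ∣ orderOf c) δ (f x) := by
  classical
  unfold phi
  rw [Finset.prod_filter]
  apply Finset.prod_congr rfl
  intro p hp
  have h := dvd_order N f hinf (hσ p hp) x
  rw [hx] at h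
  by_cases h1 : p ∣ orderOf c
  · rw [if_pos (h.2 (Or.inl h1)), if_neg (not_not.2 h1)]
  · rw [if_pos h1]
    by_cases h2 : p ∣ orderOf (f x)
    · rw [if_pos (h.2 (Or.inr h2)), if_pos h2]
    · rw [if_neg (fun h3 => (h.1 h3).elim h1 h2), if_neg h2]

lemma phi_dp (σ : Finset ℕ) (δ : ℕ → ℝ) (a : ℕ) (c : G ⧸ N) :
    Bd (σ.filter fun p => ¬ p ∣ orderOf c) δ a = phi σ (dp δ a) c := by
  classical
  unfold Bd phi dp
  rw [Finset.prod_filter]
  apply Finset.prod_congr rfl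
  intro p _
  by_cases h : p ∣ orderOf c
  · rw [if_neg (not_not.2 h), if_pos h]
  · rw [if_pos h, if_neg h]

lemma even_sum (σ : Finset ℕ) (δ : ℕ → ℝ) :
    ∑ s ∈ univ.filter (fun s : Equiv.Perm (Fin m) => Equiv.Perm.sign s = 1), phi σ δ s =
      Sm σ δ (alternatingGroup (Fin m)) := by
  classical
  unfold Sm
  rw [finsum_eq_sum_of_fintype,
    Finset.sum_subtype (p := fun s => s ∈ alternatingGroup (Fin m)) (F := Fintype.ofFinite _)
      (univ.filter (fun s : Equiv.Perm (Fin m) => Equiv.Perm.sign s = 1))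
      (fun s => by rw [mem_filter, Equiv.Perm.mem_alternatingGroup]; simp)]
  have e : ∀ s : alternatingGroup (Fin m), phi σ δ (s : Equiv.Perm (Fin m)) = phi σ δ s :=
    fun s => phi_coe σ δ _ s
  refine (Finset.sum_congr rfl fun s _ => e s).trans ?_
  refine Finset.sum_congr ?_ fun _ _ => rfl
  ext s
  simp

lemma coset_le (hm : 5 ≤ m) (hodd : OddIneq m) (hmap : N.map f = alternatingGroup (Fin m))
    {σ : Finset ℕ} {δ : ℕ → ℝ} (hσ : ∀ p ∈ σ, p.Prime) (hδ : ∀ p ∈ σ, 0 ≤ δ p ∧ δ p ≤ 1 / p)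
    (x0 : G) :
    ∑ s ∈ univ.filter (fun s : Equiv.Perm (Fin m) =>
        Equiv.Perm.sign s = Equiv.Perm.sign (f x0)),
      phi (σ.filter fun p => ¬ p ∣ orderOf (x0 : G ⧸ N)) δ s ≤
      Nat.card (alternatingGroup (Fin m)) *
        phi σ (dp δ (Nat.card (alternatingGroup (Fin m)))) (x0 : G ⧸ N) := by
  rw [← phi_dp]
  rcases Int.units_eq_one_or (Equiv.Perm.sign (f x0)) with h | h
  · rw [h, even_sum]
    exact good_H (alternatingGroup (Fin m)) le_rfl hm _ δ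
      (fun p hp => hσ p (mem_filter.1 hp).1) (fun p hp => hδ p (mem_filter.1 hp).1)
  · rw [h]
    refine hodd _ δ (fun p hp => hσ p (mem_filter.1 hp).1)
      (fun p hp => hδ p (mem_filter.1 hp).1) ?_
    intro h2
    have h3 := (mem_filter.1 h2).2
    have hk : Odd (orderOf (x0 : G ⧸ N)) := Nat.not_even_iff_odd.1 (fun he => h3 he.two_dvd)
    have hx : x0 ^ orderOf (x0 : G ⧸ N) ∈ N := by
      rw [← QuotientGroup.eq_one_iff, QuotientGroup.mk_pow]
      exact pow_orderOf_eq_one _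
    have h4 := sign_of_mem N f hmap hx
    rw [map_pow, map_pow, h, hk.neg_one_pow] at h4
    exact absurd h4 (by decide)

end

theorem done : S_EXT := by
  classical
  intro m hm hodd G _ _ N _ f hinf hmap hQ
  haveI := Fintype.ofFinite G
  haveI := Fintype.ofFinite (G ⧸ N)
  obtain ⟨a, ha⟩ : ∃ a, a = Nat.card (alternatingGroup (Fin m)) := ⟨_, rfl⟩
  have ha0 : 0 < a := by
    rw [ha]
    exact Nat.card_pos
  have hcN : Nat.card N = a := (card_N N f hinf hmap).trans ha.symm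
  have hcG : Nat.card G = a * Nat.card (G ⧸ N) := by
    rw [← hcN, mul_comm]
    exact Subgroup.card_eq_card_quotient_mul_card_subgroup N
  have hBd : ∀ (σ : Finset ℕ) (δ : ℕ → ℝ),
      (a : ℝ) * (Nat.card (G ⧸ N) * Bd σ (dp δ a) (Nat.card (G ⧸ N))) =
        Nat.card G * Bd σ δ (Nat.card G) := by
    intro σ δ
    have h1 : Bd σ (dp δ a) (Nat.card (G ⧸ N)) = Bd σ δ (Nat.card G) := by
      unfold Bd dp
      apply prod_congr rfl
      intro p _
      rw [hcG, Nat.factorization_mul ha0.ne' Nat.card_pos.ne', Finsupp.add_apply, pow_add,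
        div_div, Nat.cast_mul]
    rw [h1, ← mul_assoc, hcG, Nat.cast_mul]
  have hfib : ∀ (σ : Finset ℕ) (δ : ℕ → ℝ), (∀ p ∈ σ, p.Prime) → ∀ x0 : G,
      ∑ x ∈ univ.filter (fun x : G => (x : G ⧸ N) = (x0 : G ⧸ N)), phi σ δ x =
      ∑ s ∈ univ.filter (fun s : Equiv.Perm (Fin m) =>
        Equiv.Perm.sign s = Equiv.Perm.sign (f x0)),
        phi (σ.filter fun p => ¬ p ∣ orderOf (x0 : G ⧸ N)) δ s := by
    intro σ δ hσ x0
    rw [← fiber_sum N f hinf hmap x0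
      (fun s => phi (σ.filter fun p => ¬ p ∣ orderOf (x0 : G ⧸ N)) δ s)]
    exact sum_congr rfl fun x hx => phi_eq N f hinf hσ δ _ x (mem_filter.1 hx).2
  have hsum : ∀ (σ : Finset ℕ) (δ : ℕ → ℝ), Sm σ δ G =
      ∑ c : G ⧸ N, ∑ x ∈ univ.filter (fun x : G => (x : G ⧸ N) = c), phi σ δ x := by
    intro σ δ
    unfold Sm
    rw [finsum_eq_sum_of_fintype, ← sum_fiberwise_of_maps_to (t := (univ : Finset (G ⧸ N)))
      (g := fun x : G => (x : G ⧸ N)) (fun _ _ => mem_univ _)]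
  have hle : ∀ (σ : Finset ℕ) (δ : ℕ → ℝ), (∀ p ∈ σ, p.Prime) →
      (∀ p ∈ σ, 0 ≤ δ p ∧ δ p ≤ 1 / p) → ∀ c : G ⧸ N,
      ∑ x ∈ univ.filter (fun x : G => (x : G ⧸ N) = c), phi σ δ x ≤
        a * phi σ (dp δ a) c := by
    intro σ δ hσ hδ c
    obtain ⟨x0, rfl⟩ := QuotientGroup.mk_surjective c
    rw [hfib σ δ hσ x0, ha]
    exact coset_le N f hm hodd hmap hσ hδ x0
  have hdp : ∀ (δ : ℕ → ℝ) (p : ℕ), p.Prime → 0 ≤ δ p ∧ δ p ≤ 1 / p →
      0 ≤ dp δ a p ∧ dp δ a p ≤ 1 / p := by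
    intro δ p hp h
    have h1 : (1 : ℝ) ≤ (p ^ a.factorization p : ℕ) := by
      exact_mod_cast Nat.one_le_pow _ _ hp.pos
    exact ⟨div_nonneg h.1 (by linarith), (div_le_self h.1 h1).trans h.2⟩
  have hQs : ∀ (σ : Finset ℕ) (δ : ℕ → ℝ), (∀ p ∈ σ, p.Prime) →
      (∀ p ∈ σ, 0 ≤ δ p ∧ δ p ≤ 1 / p) →
      ∑ c : G ⧸ N, (a : ℝ) * phi σ (dp δ a) c ≤
        a * (Nat.card (G ⧸ N) * Bd σ (dp δ a) (Nat.card (G ⧸ N))) := by
    intro σ δ hσ hδ
    rw [← mul_sum]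
    refine mul_le_mul_of_nonneg_left ?_ (Nat.cast_nonneg _)
    have h1 := hQ σ (dp δ a) hσ (fun p hp => hdp δ p (hσ p hp) (hδ p hp))
    unfold Sm at h1
    rw [finsum_eq_sum_of_fintype] at h1
    exact h1
  constructor
  · intro σ δ hσ hδ
    rw [← hBd σ δ, hsum]
    exact (sum_le_sum fun c _ => hle σ δ hσ hδ c).trans (hQs σ δ hσ hδ)
  · intro σ δ hσ hδ hall
    have hδ' : ∀ p ∈ σ, 0 ≤ δ p ∧ δ p ≤ 1 / p := fun p hp => ⟨(hδ p hp).1.le, (hδ p hp).2⟩
    rw [← hBd σ δ, hsum]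
    refine lt_of_lt_of_le ?_ (hQs σ δ hσ hδ')
    refine sum_lt_sum (fun c _ => hle σ δ hσ hδ' c) ⟨((1 : G) : G ⧸ N), mem_univ _, ?_⟩
    rw [hfib σ δ hσ 1, ← phi_dp, map_one, map_one, even_sum, ha]
    refine sgood_H (alternatingGroup (Fin m)) le_rfl hm _ δ
      (fun p hp => hσ p (mem_filter.1 hp).1) (fun p hp => hδ p (mem_filter.1 hp).1) ?_
    intro p hp hpa
    refine mem_filter.2 ⟨hall p hp ?_, ?_⟩
    · rw [hcG, ha]
      exact hpa.mul_right _
    · rw [QuotientGroup.mk_one, orderOf_one]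
      intro h1
      exact hp.one_lt.ne' (Nat.dvd_one.1 h1)

end Pool.Agent.Y406.OQ.EXT
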